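import Pool.Agent.Q96.ID.Stm

/-!
Project ID (helper96), job UNIQ: any injective space may be used in the first step of a resolution.
-/

set_option autoImplicit false

namespace Q181.ID.UNIQ

open Q96.ID

theorem t_UNIQ (h1 : S_SCH) (h2 : S_IDB) (h3 : S_RET) : S_UNIQ := by
  intro 𝕜 _ n X E Q _ _ _ _ _ _ _ _ _ i q hE hs hid
  obtain ⟨E', Q', _, _, _, _, _, _, i', q', hE', hs', hid'⟩ := hid
  obtain ⟨T⟩ := h1 𝕜 X E Q E' Q' i q i' q' hE hE' hs hs'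
  have h4 : IdLE 𝕜 n (Q' × E) := (h2 𝕜 Q' E).2.2.1 n hid' hE
  refine h3 𝕜 n (Q' × E) Q ((ContinuousLinearMap.fst 𝕜 Q E').comp (T.symm : (Q' × E) →L[𝕜] (Q × E')))
    ((T : (Q × E') →L[𝕜] (Q' × E)).comp (ContinuousLinearMap.inl 𝕜 Q E')) (fun c => ?_) h4
  simp

end Q181.ID.UNIQ
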